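import Pool.Agent.Lib.MP_bbc38a_co.AsmUp
import Pool.Agent.Lib.MP_bbc38a_co.AsmLow
import Mathlib.Probability.Combinatorics.BinomialRandomGraph.Defs

set_option autoImplicit false

open MeasureTheory Filter Topology unitInterval SimpleGraph

namespace Pool.Agent.Results.MP_bbc38a_co.SaturationNumber

/-- `H` is `F`-saturated in `G`: `H` is a spanning subgraph of `G` which contains no copy of `F`
(as a not necessarily induced subgraph), and adding to `H` any edge of `G` outside `H` creates a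
copy of `F`. -/
structure IsSaturatedIn {V W : Type} (F : SimpleGraph W) (G H : SimpleGraph V) : Prop where
  le : H ≤ G
  free : ¬ F ⊑ H
  saturated : ∀ e ∈ G.edgeSet \ H.edgeSet, F ⊑ H ⊔ SimpleGraph.fromEdgeSet {e}

/-- The numbers of edges of the `F`-saturated subgraphs of `G`. -/
def satSizes {V W : Type} (F : SimpleGraph W) (G : SimpleGraph V) : Set ℕ :=
  {m : ℕ | ∃ H : SimpleGraph V, IsSaturatedIn F G H ∧ H.edgeSet.ncard = m}

/-- The saturation number `sat(G, F)`, the minimum of `satSizes F G`. -/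
noncomputable def sat {V W : Type} (G : SimpleGraph V) (F : SimpleGraph W) : ℕ :=
  sInf (satSizes F G)

/-- A finite graph has an `F`-saturated subgraph if `F` has an edge. -/
theorem satSizes_nonempty {V W : Type} [Finite V] (F : SimpleGraph W) (hF : F ≠ ⊥)
    (G : SimpleGraph V) : (satSizes F G).Nonempty := by
  have hfin : Set.Finite {H : SimpleGraph V | H ≤ G ∧ ¬ F ⊑ H} := Set.toFinite _
  have hne : ({H : SimpleGraph V | H ≤ G ∧ ¬ F ⊑ H}).Nonempty := by
    refine ⟨⊥, bot_le, ?_⟩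
    rintro ⟨f⟩
    apply hF
    rw [eq_bot_iff]
    intro u v huv
    exact absurd (f.toHom.map_adj huv) (by simp)
  obtain ⟨H, hH⟩ := hfin.exists_maximal hne
  refine ⟨_, H, ⟨hH.1.1, hH.1.2, ?_⟩, rfl⟩
  intro e he
  by_contra hcon
  have hle : H ⊔ SimpleGraph.fromEdgeSet {e} ≤ G := by
    refine sup_le hH.1.1 ?_
    intro u v huv
    rw [SimpleGraph.fromEdgeSet_adj] at huv
    have h1 : s(u, v) = e := huv.1
    rw [← SimpleGraph.mem_edgeSet, h1]
    exact he.1
  have h2 := hH.2 ⟨hle, hcon⟩ le_sup_left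
  apply he.2
  have hd : ¬ e.IsDiag := G.not_isDiag_of_mem_edgeSet he.1
  have h3 : e ∈ (H ⊔ SimpleGraph.fromEdgeSet {e}).edgeSet := by
    rw [SimpleGraph.edgeSet_sup, SimpleGraph.edgeSet_fromEdgeSet]
    exact Or.inr ⟨rfl, hd⟩
  exact SimpleGraph.edgeSet_mono h2 h3

/-- Single graphs are measurable. -/
theorem measurable_single {n : ℕ} (G : SimpleGraph (Fin n)) :
    MeasurableSet ({G} : Set (SimpleGraph (Fin n))) := by
  have h : ({G} : Set (SimpleGraph (Fin n))) = SimpleGraph.edgeSet ⁻¹' {G.edgeSet} := by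
    ext H
    simp
  rw [h]
  exact SimpleGraph.measurable_edgeSet (measurableSet_singleton _)

/-- The probability as a finite sum. -/
theorem binomialRandom_eq (p : I) (n : ℕ) (S : Set (SimpleGraph (Fin n))) :
    SimpleGraph.binomialRandom (Fin n) p S = ENNReal.ofReal (Pool.Bbc38.Pr (p : ℝ) n S) := by
  classical
  have hms : MeasurableSingletonClass (SimpleGraph (Fin n)) := ⟨measurable_single⟩
  have h1 : S = ((Finset.univ.filter (fun G : SimpleGraph (Fin n) => G ∈ S) :
      Finset (SimpleGraph (Fin n))) : Set (SimpleGraph (Fin n))) := by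
    ext G
    simp
  have h2 : ∀ G : SimpleGraph (Fin n), SimpleGraph.binomialRandom (Fin n) p {G} =
      ENNReal.ofReal (Pool.Bbc38.wt (p : ℝ) G) := by
    intro G
    rw [SimpleGraph.binomialRandom_singleton, Pool.Bbc38.wt,
      ENNReal.ofReal_mul (pow_nonneg p.2.1 _), ENNReal.ofReal_pow p.2.1,
      ENNReal.ofReal_pow (by linarith [p.2.2]), Nat.card_fin]
    have e1 : ENNReal.ofReal (p : ℝ) = (unitInterval.toNNReal p : ENNReal) :=
      ENNReal.ofReal_coe_nnreal (p := unitInterval.toNNReal p)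
    have e2 : ENNReal.ofReal (1 - (p : ℝ)) = (unitInterval.toNNReal (σ p) : ENNReal) :=
      ENNReal.ofReal_coe_nnreal (p := unitInterval.toNNReal (σ p))
    rw [e1, e2]
  conv_lhs => rw [h1]
  rw [← MeasureTheory.sum_measure_singleton, Pool.Bbc38.Pr, ENNReal.ofReal_sum_of_nonneg]
  · refine Finset.sum_congr ?_ (fun G _ => h2 G)
    ext G
    simp
  · intro G _
    exact Pool.Bbc38.wt_nonneg p.2.1 p.2.2 G

/-- Copies in terms of an isomorphic graph. -/
theorem copy_iff {W W' V : Type} {F : SimpleGraph W} {F' : SimpleGraph W'} (e : F ≃g F')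
    (H : SimpleGraph V) : F ⊑ H ↔ F' ⊑ H :=
  ⟨fun h => (SimpleGraph.IsContained.trans ⟨e.symm.toCopy⟩ h),
    fun h => (SimpleGraph.IsContained.trans ⟨e.toCopy⟩ h)⟩

/-- The two descriptions of saturation. -/
theorem saturated_iff {W : Type} {n k : ℕ} {F : SimpleGraph W} {F' : SimpleGraph (Fin k)}
    (e : F ≃g F') (G H : SimpleGraph (Fin n)) :
    IsSaturatedIn F G H ↔ (H ≤ G ∧ ¬ F'.IsContained H ∧
      ∀ u v : Fin n, G.Adj u v → ¬ H.Adj u v →
        F'.IsContained (H ⊔ SimpleGraph.fromEdgeSet {s(u, v)})) := by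
  constructor
  · rintro ⟨h1, h2, h3⟩
    refine ⟨h1, fun h => h2 ((copy_iff e H).2 h), ?_⟩
    intro u v huv hH
    exact (copy_iff e _).1 (h3 s(u, v) ⟨huv, hH⟩)
  · rintro ⟨h1, h2, h3⟩
    refine ⟨h1, fun h => h2 ((copy_iff e H).1 h), ?_⟩
    intro x hx
    induction x using Sym2.ind with
    | _ u v => exact (copy_iff e _).2 (h3 u v hx.1 hx.2)

/-- **Saturation number of triangle-covered graphs in the random graph.** Let `0 < p < 1` and let
`F` be a finite graph with at least one edge such that every edge of `F` belongs to a triangle of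
`F`. Then `sat(G, F)` is the minimum of the numbers of edges of the `F`-saturated subgraphs of `G`
(for every graph `G` on `n` vertices there are such subgraphs), and for every `ε > 0` the
probability that the binomial random graph `G(n, p)` satisfies
`|sat(G(n, p), F) - n log_{1/(1-p)} n| ≤ ε n log_{1/(1-p)} n` tends to `1`. -/
theorem result {W : Type} [Finite W] (F : SimpleGraph W) (hF : F ≠ ⊥)
    (htri : ∀ u v : W, F.Adj u v → ∃ w : W, F.Adj u w ∧ F.Adj v w)
    (p : I) (hp0 : 0 < p) (hp1 : p < 1) :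
    (∀ (n : ℕ) (G : SimpleGraph (Fin n)), IsLeast (satSizes F G) (sat G F)) ∧
    ∀ ε : ℝ, 0 < ε → Tendsto
      (fun n : ℕ => SimpleGraph.binomialRandom (Fin n) p
        {G : SimpleGraph (Fin n) |
          |(sat G F : ℝ) - n * Real.logb (1 / (1 - (p : ℝ))) n| ≤
            ε * (n * Real.logb (1 / (1 - (p : ℝ))) n)})
      atTop (𝓝 1) := by
  have hleast : ∀ (n : ℕ) (G : SimpleGraph (Fin n)), IsLeast (satSizes F G) (sat G F) := by
    intro n G
    exact ⟨Nat.sInf_mem (satSizes_nonempty F hF G), fun m hm => Nat.sInf_le hm⟩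
  refine ⟨hleast, ?_⟩
  intro ε hε
  have h0 : (0 : ℝ) < p := hp0
  have h1 : (p : ℝ) < 1 := hp1
  obtain ⟨k, ⟨f⟩⟩ := Finite.exists_equiv_fin W
  obtain ⟨F', hF'⟩ : ∃ F' : SimpleGraph (Fin k), F' = F.map f.toEmbedding := ⟨_, rfl⟩
  have e : F ≃g F' := by
    rw [hF']
    exact SimpleGraph.Iso.map f F
  have hne : F'.edgeSet.Nonempty := by
    rw [Set.nonempty_iff_ne_empty]
    intro h
    apply hF
    rw [SimpleGraph.edgeSet_eq_empty] at h
    rw [eq_bot_iff]
    intro u v huv
    have h2 : ∀ a b : Fin k, ¬ F'.Adj a b := by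
      intro a b
      rw [h]
      simp
    exact absurd (e.map_rel_iff.2 huv) (h2 _ _)
  have htri' : ∀ u v : Fin k, F'.Adj u v → ∃ w : Fin k, F'.Adj u w ∧ F'.Adj v w := by
    intro u v huv
    have h2 : F.Adj (e.symm u) (e.symm v) := e.symm.map_rel_iff.2 huv
    obtain ⟨w, hw1, hw2⟩ := htri _ _ h2
    refine ⟨e w, ?_, ?_⟩
    · have := e.map_rel_iff.2 hw1
      simpa using this
    · have := e.map_rel_iff.2 hw2
      simpa using this
  have k1 := Pool.Bbc38.whp_upper h0 h1 F' hne htri' ε hε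
  have k2 := Pool.Bbc38.whp_lower h0 h1 F' htri' ε hε
  have k3 := Pool.Bbc38.Whp.inter h0.le h1.le k1 k2
  have k4 := Pool.Bbc38.Whp.mono h0.le h1.le (T := fun n => {G : SimpleGraph (Fin n) |
          |(sat G F : ℝ) - n * Real.logb (1 / (1 - (p : ℝ))) n| ≤
            ε * (n * Real.logb (1 / (1 - (p : ℝ))) n)}) k3 (Eventually.of_forall (by
    intro n G hG
    obtain ⟨⟨H, hH1, hH2⟩, hG2⟩ := hG
    have hs1 : sat G F ≤ H.edgeSet.ncard :=
      (hleast n G).2 ⟨H, (saturated_iff e G H).2 hH1, rfl⟩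
    obtain ⟨H', hH', hH'2⟩ := (hleast n G).1
    have hs2 := hG2 H' ((saturated_iff e G H').1 hH')
    rw [hH'2] at hs2
    have hs3 : (sat G F : ℝ) ≤ (H.edgeSet.ncard : ℝ) := by exact_mod_cast hs1
    have hs4 := hs3.trans hH2
    simp only [Pool.Bbc38.LL] at hs2 hs4
    show |(sat G F : ℝ) - n * Real.logb (1 / (1 - (p : ℝ))) n| ≤
            ε * (n * Real.logb (1 / (1 - (p : ℝ))) n)
    rw [abs_le]
    constructor
    · linarith
    · linarith))
  unfold Pool.Bbc38.Whp at k4
  have k5 := ENNReal.tendsto_ofReal k4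
  rw [ENNReal.ofReal_one] at k5
  refine k5.congr (fun n => ?_)
  exact (binomialRandom_eq p n _).symm

end Pool.Agent.Results.MP_bbc38a_co.SaturationNumber
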